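import Pool.Agent.Helper51.PSC.Perms

/-!
# Graphs of maximum degree at most two (for MP_b6b2d3_co)
-/

namespace Pool.Agent.Helper51.PSC

open Equiv

/-- Every vertex has at most two neighbours. -/
def D2 {V : Type*} (H : SimpleGraph V) : Prop :=
  ∀ x a b c, H.Adj x a → H.Adj x b → H.Adj x c → a = b ∨ a = c ∨ b = c

/-- The admissible lists. -/
def Adm {V : Type*} (H : SimpleGraph V) (S : Finset V) (l : List V) : Prop :=
  l ≠ [] ∧ l.Nodup ∧ l.IsChain H.Adj ∧ ∀ x ∈ l, x ∈ S

theorem exists_longest {V : Type*} [Fintype V] [DecidableEq V] (H : SimpleGraph V) (S : Finset V)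
    (hS : S.Nonempty) : ∃ l, Adm H S l ∧ ∀ l', Adm H S l' → l'.length ≤ l.length := by
  classical
  obtain ⟨x, hx⟩ := hS
  have hb : ∀ l, Adm H S l → l.length ≤ Fintype.card V := fun l hl => hl.2.1.length_le_card
  set P : ℕ → Prop := fun k => ∃ l, Adm H S l ∧ l.length = k with hP
  have hx1 : P 1 := ⟨[x], ⟨by simp, by simp, by simp, by simpa using hx⟩, rfl⟩
  have h1 : 1 ≤ Fintype.card V := Fintype.card_pos_iff.2 ⟨x⟩
  obtain ⟨l, hl, hlen⟩ := Nat.findGreatest_spec (P := P) h1 hx1
  refine ⟨l, hl, fun l' hl' => ?_⟩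
  rw [hlen]
  exact Nat.le_findGreatest (hb l' hl') ⟨l', hl', rfl⟩

theorem longest_closed {V : Type*} [Fintype V] [DecidableEq V] {H : SimpleGraph V} (hD : D2 H)
    {S : Finset V} (hS : ∀ x ∈ S, ∀ y, H.Adj x y → y ∈ S) {l : List V} (hl : Adm H S l)
    (hmax : ∀ l', Adm H S l' → l'.length ≤ l.length) :
    ∀ x ∈ l, ∀ y, H.Adj x y → y ∈ l ∧ (y = l.formPerm x ∨ x = l.formPerm y) := by
  obtain ⟨hne, hnd, hch, hmem⟩ := hl
  have hpos : 0 < l.length := List.length_pos_iff.2 hne
  have hinj : ∀ (i j : ℕ) (hi : i < l.length) (hj : j < l.length), l[i] = l[j] → i = j :=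
    fun i j hi hj h => (List.Nodup.getElem_inj_iff hnd).1 h
  -- front
  have front : ∀ y, H.Adj (l[0]) y → y ∈ l := by
    intro y hy
    by_contra hyl
    have h1 : Adm H S (y :: l) := by
      refine ⟨by simp, List.nodup_cons.2 ⟨hyl, hnd⟩, ?_, ?_⟩
      · obtain ⟨a, l', rfl⟩ := List.exists_cons_of_ne_nil hne
        rw [List.isChain_cons_cons]
        exact ⟨hy.symm, hch⟩
      · intro x hx
        rcases List.mem_cons.1 hx with rfl | hx
        · exact hS _ (hmem _ (List.getElem_mem hpos)) _ hy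
        · exact hmem x hx
    have := hmax _ h1
    simp at this
  -- back
  have back : ∀ y, H.Adj (l[l.length - 1]) y → y ∈ l := by
    intro y hy
    by_contra hyl
    have h1 : Adm H S (l ++ [y]) := by
      refine ⟨by simp, ?_, ?_, ?_⟩
      · rw [List.nodup_append']
        refine ⟨hnd, by simp, ?_⟩
        intro a ha hb
        rw [List.mem_singleton] at hb
        exact hyl (hb ▸ ha)
      · rw [List.isChain_append]
        refine ⟨hch, by simp, ?_⟩
        intro a ha b hb
        rw [List.getLast?_eq_getElem?, List.getElem?_eq_getElem (by omega)] at ha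
        simp only [List.head?_cons, Option.mem_def, Option.some.injEq] at ha hb
        rw [← ha, ← hb]
        exact hy
      · intro x hx
        rcases List.mem_append.1 hx with hx | hx
        · exact hmem x hx
        · rw [List.mem_singleton] at hx
          rw [hx]
          exact hS _ (hmem _ (List.getElem_mem (by omega))) _ hy
    have := hmax _ h1
    simp at this
  -- interior
  have hch' := List.isChain_iff_getElem.1 hch
  have inter : ∀ (i : ℕ) (h : i + 2 < l.length) (y : V), H.Adj (l[i + 1]) y →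
      y = l[i] ∨ y = l[i + 2] := by
    intro i h y hy
    have h1 := (hch' i (by omega)).symm
    have h2 := hch' (i + 1) (by omega)
    rcases hD _ _ _ _ hy h1 h2 with h3 | h3 | h3
    · exact Or.inl h3
    · exact Or.inr h3
    · have := hinj _ _ _ _ h3
      omega
  -- the indices of the neighbours
  have key : ∀ (i : ℕ) (hi : i < l.length) (y : V), H.Adj (l[i]) y →
      ∃ (j : ℕ) (hj : j < l.length), y = l[j] ∧ (j = (i + 1) % l.length ∨
        i = (j + 1) % l.length) := by
    intro i hi y hy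
    by_cases hint : 0 < i ∧ i + 1 < l.length
    · obtain ⟨k, rfl⟩ : ∃ k, i = k + 1 := ⟨i - 1, by omega⟩
      rcases inter k (by omega) y hy with h | h
      · exact ⟨k, by omega, h, Or.inr (Nat.mod_eq_of_lt hi).symm⟩
      · exact ⟨k + 2, by omega, h, Or.inl (Nat.mod_eq_of_lt (by omega)).symm⟩
    · -- an end
      have hyl : y ∈ l := by
        by_cases h0 : i = 0
        · subst h0; exact front y hy
        · have : i = l.length - 1 := by omega
          subst this; exact back y hy
      obtain ⟨j, hj, rfl⟩ := List.getElem_of_mem hyl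
      refine ⟨j, hj, rfl, ?_⟩
      have hij : i ≠ j := by
        rintro rfl
        exact H.loopless.irrefl _ hy
      by_cases hjnt : 0 < j ∧ j + 1 < l.length
      · obtain ⟨k, rfl⟩ : ∃ k, j = k + 1 := ⟨j - 1, by omega⟩
        rcases inter k (by omega) _ hy.symm with h | h
        · have := hinj _ _ _ _ h
          left; rw [Nat.mod_eq_of_lt (by omega)]; omega
        · have := hinj _ _ _ _ h
          right; rw [Nat.mod_eq_of_lt (by omega)]; omega
      · have hcase : (i = 0 ∧ j + 1 = l.length) ∨ (j = 0 ∧ i + 1 = l.length) := by omega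
        rcases hcase with ⟨h1, h2⟩ | ⟨h1, h2⟩
        · right; rw [h1, h2, Nat.mod_self]
        · left; rw [h1, h2, Nat.mod_self]
  intro x hx y hy
  obtain ⟨i, hi, rfl⟩ := List.getElem_of_mem hx
  obtain ⟨j, hj, rfl, h⟩ := key i hi y hy
  refine ⟨List.getElem_mem hj, ?_⟩
  rcases h with h | h
  · left
    rw [List.formPerm_apply_getElem _ hnd]
    simp only [← h]
  · right
    rw [List.formPerm_apply_getElem _ hnd]
    simp only [← h]

theorem decomp {V : Type*} [Fintype V] [DecidableEq V] {H : SimpleGraph V} (hD : D2 H) :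
    ∀ (N : ℕ) (S : Finset V), S.card = N → (∀ x ∈ S, ∀ y, H.Adj x y → y ∈ S) →
      ∃ VV : List (List V), VV.flatten.Nodup ∧ (∀ x, x ∈ VV.flatten ↔ x ∈ S) ∧
        ∀ l ∈ VV, l ≠ [] ∧ l.IsChain H.Adj ∧
          ∀ x ∈ l, ∀ y, H.Adj x y → y ∈ l ∧ (y = l.formPerm x ∨ x = l.formPerm y) := by
  intro N
  induction N using Nat.strong_induction_on with
  | _ N ih =>
  intro S hN hS
  rcases S.eq_empty_or_nonempty with rfl | hne
  · exact ⟨[], by simp, by simp, by simp⟩
  obtain ⟨l, hl, hmax⟩ := exists_longest H S hne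
  have hcl := longest_closed hD hS hl hmax
  obtain ⟨a, l', hal⟩ := List.exists_cons_of_ne_nil hl.1
  have hlt : (S \ l.toFinset).card < N := by
    rw [← hN]
    apply Finset.card_lt_card
    refine Finset.ssubset_iff_subset_ne.2 ⟨Finset.sdiff_subset, fun h => ?_⟩
    have ha : a ∈ S := hl.2.2.2 a (by rw [hal]; simp)
    rw [← h, Finset.mem_sdiff] at ha
    exact ha.2 (by rw [hal]; simp)
  obtain ⟨VV, h1, h2, h3⟩ := ih _ hlt (S \ l.toFinset) rfl (by
    intro x hx y hy
    rw [Finset.mem_sdiff, List.mem_toFinset] at hx ⊢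
    exact ⟨hS x hx.1 y hy, fun hyl => hx.2 (hcl y hyl x hy.symm).1⟩)
  refine ⟨l :: VV, ?_, ?_, ?_⟩
  · rw [List.flatten_cons, List.nodup_append']
    refine ⟨hl.2.1, h1, ?_⟩
    intro x hx hx'
    rw [h2, Finset.mem_sdiff, List.mem_toFinset] at hx'
    exact hx'.2 hx
  · intro x
    rw [List.flatten_cons, List.mem_append, h2, Finset.mem_sdiff, List.mem_toFinset]
    constructor
    · rintro (h | h)
      · exact hl.2.2.2 x h
      · exact h.1
    · intro h
      by_cases hx : x ∈ l
      · exact Or.inl hx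
      · exact Or.inr ⟨h, hx⟩
  · intro l0 hl0
    rcases List.mem_cons.1 hl0 with rfl | hl0
    · exact ⟨hl.1, hl.2.2.1, hcl⟩
    · exact h3 l0 hl0

/-- **The arrangement** from a decomposition and a realisation of its lengths. -/
theorem arrange_of {n t : ℕ} {H : SimpleGraph (Fin n)} {VV : List (List (Fin n))}
    (hnd : VV.flatten.Nodup)
    (hedge : ∀ x y, H.Adj x y → ∃ l ∈ VV, x ∈ l ∧ y ∈ l ∧ (y = l.formPerm x ∨ x = l.formPerm y))
    (hR : Realize n t ↑(VV.map List.length)) :
    ∃ c : Perm (Fin n), ∀ x y, H.Adj x y → Far n t (c x) (c y) := by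
  obtain ⟨PP, h1, h2, h3⟩ := hR
  have hct : (prodP VV).cycleType = (prodP PP).cycleType := by
    rw [prodP_cycleType hnd, prodP_cycleType h2, h1]
  obtain ⟨c, hc⟩ := isConj_iff.1 (Equiv.Perm.isConj_iff_cycleType_eq.2 hct)
  have hcx : ∀ x, c (prodP VV x) = prodP PP (c x) := by
    intro x
    rw [← hc]
    simp
  have hfar : ∀ z : Fin n, prodP PP z = z ∨ Far n t z (prodP PP z) := by
    intro z
    by_cases hz : z ∈ PP.flatten
    · obtain ⟨l, hl, hzl⟩ := List.mem_flatten.1 hz
      rw [prodP_apply h2 hl hzl]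
      exact ok_apply (h3 l hl) ((List.nodup_flatten.1 h2).1 l hl) hzl
    · exact Or.inl (prodP_fix hz)
  refine ⟨c, fun x y hxy => ?_⟩
  have hne : x ≠ y := hxy.ne
  obtain ⟨l, hl, hx, hy, h | h⟩ := hedge x y hxy
  · have e : c y = prodP PP (c x) := by
      rw [← hcx, prodP_apply hnd hl hx, ← h]
    rcases hfar (c x) with h4 | h4
    · rw [← e] at h4
      exact absurd (c.injective h4) hne.symm
    · rw [← e] at h4
      exact h4
  · have e : c x = prodP PP (c y) := by
      rw [← hcx, prodP_apply hnd hl hy, ← h]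
    rcases hfar (c y) with h4 | h4
    · rw [← e] at h4
      exact absurd (c.injective h4) hne
    · rw [← e] at h4
      exact h4.symm

/-- Graphs of maximum degree at most two. -/
theorem arrange_two {n : ℕ} (hn : 0 < n) {H : SimpleGraph (Fin n)} (hD : D2 H) :
    ∃ c : Perm (Fin n), ∀ x y, H.Adj x y → Far n (n / 3) (c x) (c y) := by
  obtain ⟨VV, h1, h2, h3⟩ := decomp hD _ Finset.univ rfl (fun _ _ _ _ => Finset.mem_univ _)
  refine arrange_of h1 ?_ (realize_three hn ?_ ?_)
  · intro x y hxy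
    obtain ⟨l, hl, hxl⟩ := List.mem_flatten.1 ((h2 x).2 (Finset.mem_univ _))
    obtain ⟨h4, h5⟩ := (h3 l hl).2.2 x hxl y hxy
    exact ⟨l, hl, hxl, h4, h5⟩
  · intro a ha
    rw [Multiset.mem_coe] at ha
    obtain ⟨l, hl, rfl⟩ := List.mem_map.1 ha
    exact List.length_pos_iff.2 (h3 l hl).1
  · rw [Multiset.sum_coe, ← List.length_flatten]
    have : VV.flatten.toFinset = Finset.univ := by
      ext x; simp only [List.mem_toFinset, h2]
    rw [← List.toFinset_card_of_nodup h1, this]
    simp

/-- Graphs of maximum degree at most one. -/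
theorem arrange_one {n : ℕ} (hn : 0 < n) {H : SimpleGraph (Fin n)}
    (hD1 : ∀ x a b, H.Adj x a → H.Adj x b → a = b) :
    ∃ c : Perm (Fin n), ∀ x y, H.Adj x y → Far n (n / 2) (c x) (c y) := by
  have hD : D2 H := fun x a b c ha hb _ => Or.inl (hD1 x a b ha hb)
  obtain ⟨VV, h1, h2, h3⟩ := decomp hD _ Finset.univ rfl (fun _ _ _ _ => Finset.mem_univ _)
  refine arrange_of h1 ?_ (realize_two hn ?_ ?_)
  · intro x y hxy
    obtain ⟨l, hl, hxl⟩ := List.mem_flatten.1 ((h2 x).2 (Finset.mem_univ _))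
    obtain ⟨h4, h5⟩ := (h3 l hl).2.2 x hxl y hxy
    exact ⟨l, hl, hxl, h4, h5⟩
  · intro a ha
    rw [Multiset.mem_coe] at ha
    obtain ⟨l, hl, rfl⟩ := List.mem_map.1 ha
    have hpos := List.length_pos_iff.2 (h3 l hl).1
    have hnd := (List.nodup_flatten.1 h1).1 l hl
    have hch := List.isChain_iff_getElem.1 (h3 l hl).2.1
    by_contra hcon
    have hlen : 3 ≤ l.length := by omega
    have e := hD1 _ _ _ (hch 0 (by omega)).symm (hch 1 (by omega))
    have := (List.Nodup.getElem_inj_iff hnd).1 e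
    omega
  · rw [Multiset.sum_coe, ← List.length_flatten]
    have : VV.flatten.toFinset = Finset.univ := by
      ext x; simp only [List.mem_toFinset, h2]
    rw [← List.toFinset_card_of_nodup h1, this]
    simp

theorem far_mod {n t a b : ℕ} (ha : a < n) (hb : b < n) (ht : 0 < t) (h : Far n t a b) :
    t ≤ (b + n - a) % n := by
  rcases h with ⟨h1, h2⟩ | ⟨h1, h2⟩
  · have e : b + n - a = (b - a) + n := by omega
    rw [e, Nat.add_mod_right, Nat.mod_eq_of_lt (by omega)]
    omega
  · rw [Nat.mod_eq_of_lt (by omega)]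
    omega

end Pool.Agent.Helper51.PSC
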