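import Pool.Agent.Helper51.PSC.Slots

/-!
# The patterns (for MP_b6b2d3_co)
-/

namespace Pool.Agent.Helper51.PSC

/-- Adjacency from arithmetic. -/
theorem adj_arith {i c j d : ℕ} (h : (c < 3 ∧ d = (c + 1) % 3 ∧ i ≤ j) ∨
    (d < 3 ∧ c = (d + 1) % 3 ∧ j ≤ i) ∨
    (i = 0 ∧ c = 3 ∧ (d = 1 ∨ (j = 0 ∧ d = 2) ∨ (j = 0 ∧ d = 4))) ∨
    (j = 0 ∧ d = 3 ∧ (c = 1 ∨ (i = 0 ∧ c = 2) ∨ (i = 0 ∧ c = 4))) ∨
    (i = 0 ∧ c = 4 ∧ (d = 2 ∨ (j = 0 ∧ d = 0))) ∨
    (j = 0 ∧ d = 4 ∧ (c = 2 ∨ (i = 0 ∧ c = 0)))) : Adj (i, c) (j, d) := by
  rcases h with ⟨h1, h2, h3⟩ | ⟨h1, h2, h3⟩ | ⟨rfl, rfl, h⟩ | ⟨rfl, rfl, h⟩ | ⟨rfl, rfl, h⟩ |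
    ⟨rfl, rfl, h⟩
  · exact Or.inl (Or.inl ⟨h3, h1, h2⟩)
  · exact Or.inr (Or.inl ⟨h3, h1, h2⟩)
  · refine Or.inl (Or.inr (Or.inl ⟨rfl, ?_⟩))
    rcases h with h | ⟨rfl, rfl⟩ | ⟨rfl, rfl⟩
    · exact Or.inl h
    · exact Or.inr (Or.inl rfl)
    · exact Or.inr (Or.inr rfl)
  · refine Or.inr (Or.inr (Or.inl ⟨rfl, ?_⟩))
    rcases h with h | ⟨rfl, rfl⟩ | ⟨rfl, rfl⟩
    · exact Or.inl h
    · exact Or.inr (Or.inl rfl)
    · exact Or.inr (Or.inr rfl)
  · refine Or.inl (Or.inr (Or.inr ⟨rfl, ?_⟩))
    rcases h with h | ⟨rfl, rfl⟩
    · exact Or.inl h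
    · exact Or.inr rfl
  · refine Or.inr (Or.inr (Or.inr ⟨rfl, ?_⟩))
    rcases h with h | ⟨rfl, rfl⟩
    · exact Or.inl h
    · exact Or.inr rfl

/-- `3k` -/
theorem p0 (k : ℕ) : Good 0 (k + 1) ↑[3 * k + 3] := by
  refine ⟨[(0, 0) :: (sn 1 1 k ++ [(0, 2), (0, 1)])], ?_, ?_, ?_⟩
  · congr 1
    simp only [List.map_cons, List.map_nil, List.length_cons, List.length_append,
      List.length_nil, length_sn, List.cons.injEq, and_true]
    try omega
  · simp only [List.mem_cons, List.not_mem_nil, or_false, forall_eq_or_imp, forall_eq]
    repeat' apply And.intro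
    all_goals first
      | exact ok_single _
      | (apply ok_cons
         simp only [List.append_assoc, List.cons_append, List.nil_append]
         refine chain_sn (fun _ _ => adj_of_up) (by norm_num) _ _ _ _ _ (fun _ => ?_)
           (fun _ => ?_) (fun _ => ?_) ?_
         · exact adj_arith (by omega)
         · exact adj_arith (by omega)
         · exact adj_arith (by omega)
         · simp only [List.isChain_cons_cons, List.isChain_singleton, and_true]
           repeat' apply And.intro
           all_goals exact adj_arith (by omega))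
  · rintro ⟨i, d⟩
    simp only [List.flatten_cons, List.flatten_nil, List.mem_cons, List.mem_append,
      List.append_nil, List.not_mem_nil, or_false, Prod.mk.injEq, Slots,
      mem_sn (show 0 < 3 by norm_num), mem_sn (show 1 < 3 by norm_num),
      mem_sn (show 2 < 3 by norm_num)]
    omega

/-- `3k + 1, 3m + 2`, `k ≥ 1` -/
theorem p1 (k m : ℕ) : Good 0 (k + m + 2) ↑[3 * k + 4, 3 * m + 2] := by
  refine ⟨[(0, 1) :: (sn 2 1 k ++ [(k + m + 1, 2), (k + m + 1, 0), (0, 2)]),
    (0, 0) :: (sn 1 (k + 1) m ++ [(k + m + 1, 1)])], ?_, ?_, ?_⟩
  · congr 1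
    simp only [List.map_cons, List.map_nil, List.length_cons, List.length_append,
      List.length_nil, length_sn, List.cons.injEq, and_true]
    try omega
  · simp only [List.mem_cons, List.not_mem_nil, or_false, forall_eq_or_imp, forall_eq]
    repeat' apply And.intro
    all_goals first
      | exact ok_single _
      | (apply ok_cons
         simp only [List.append_assoc, List.cons_append, List.nil_append]
         refine chain_sn (fun _ _ => adj_of_up) (by norm_num) _ _ _ _ _ (fun _ => ?_)
           (fun _ => ?_) (fun _ => ?_) ?_
         · exact adj_arith (by omega)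
         · exact adj_arith (by omega)
         · exact adj_arith (by omega)
         · simp only [List.isChain_cons_cons, List.isChain_singleton, and_true]
           repeat' apply And.intro
           all_goals exact adj_arith (by omega))
  · rintro ⟨i, d⟩
    simp only [List.flatten_cons, List.flatten_nil, List.mem_cons, List.mem_append,
      List.append_nil, List.not_mem_nil, or_false, Prod.mk.injEq, Slots,
      mem_sn (show 0 < 3 by norm_num), mem_sn (show 1 < 3 by norm_num),
      mem_sn (show 2 < 3 by norm_num)]
    omega

/-- `1, 3m + 2` -/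
theorem p1' (m : ℕ) : Good 0 (m + 1) ↑[1, 3 * m + 2] := by
  refine ⟨[[(0, 1)], (0, 0) :: (sn 1 1 m ++ [(0, 2)])], ?_, ?_, ?_⟩
  · congr 1
    simp only [List.map_cons, List.map_nil, List.length_cons, List.length_append,
      List.length_nil, length_sn, List.cons.injEq, and_true]
    try omega
  · simp only [List.mem_cons, List.not_mem_nil, or_false, forall_eq_or_imp, forall_eq]
    repeat' apply And.intro
    all_goals first
      | exact ok_single _
      | (apply ok_cons
         simp only [List.append_assoc, List.cons_append, List.nil_append]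
         refine chain_sn (fun _ _ => adj_of_up) (by norm_num) _ _ _ _ _ (fun _ => ?_)
           (fun _ => ?_) (fun _ => ?_) ?_
         · exact adj_arith (by omega)
         · exact adj_arith (by omega)
         · exact adj_arith (by omega)
         · simp only [List.isChain_cons_cons, List.isChain_singleton, and_true]
           repeat' apply And.intro
           all_goals exact adj_arith (by omega))
  · rintro ⟨i, d⟩
    simp only [List.flatten_cons, List.flatten_nil, List.mem_cons, List.mem_append,
      List.append_nil, List.not_mem_nil, or_false, Prod.mk.injEq, Slots,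
      mem_sn (show 0 < 3 by norm_num), mem_sn (show 1 < 3 by norm_num),
      mem_sn (show 2 < 3 by norm_num)]
    omega

/-- `3k + 2, 3m + 2, 3l + 2` -/
theorem p2 (k m l : ℕ) : Good 0 (k + m + l + 2) ↑[3 * k + 2, 3 * m + 2, 3 * l + 2] := by
  refine ⟨[(0, 0) :: (sn 1 1 k ++ [(k + m + l + 1, 1)]),
    (0, 1) :: (sn 2 (k + 1) m ++ [(k + m + l + 1, 2)]),
    (0, 2) :: (sn 0 (k + m + 1) l ++ [(k + m + l + 1, 0)])], ?_, ?_, ?_⟩
  · congr 1
    simp only [List.map_cons, List.map_nil, List.length_cons, List.length_append,
      List.length_nil, length_sn, List.cons.injEq, and_true]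
    try omega
  · simp only [List.mem_cons, List.not_mem_nil, or_false, forall_eq_or_imp, forall_eq]
    repeat' apply And.intro
    all_goals first
      | exact ok_single _
      | (apply ok_cons
         simp only [List.append_assoc, List.cons_append, List.nil_append]
         refine chain_sn (fun _ _ => adj_of_up) (by norm_num) _ _ _ _ _ (fun _ => ?_)
           (fun _ => ?_) (fun _ => ?_) ?_
         · exact adj_arith (by omega)
         · exact adj_arith (by omega)
         · exact adj_arith (by omega)
         · simp only [List.isChain_cons_cons, List.isChain_singleton, and_true]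
           repeat' apply And.intro
           all_goals exact adj_arith (by omega))
  · rintro ⟨i, d⟩
    simp only [List.flatten_cons, List.flatten_nil, List.mem_cons, List.mem_append,
      List.append_nil, List.not_mem_nil, or_false, Prod.mk.injEq, Slots,
      mem_sn (show 0 < 3 by norm_num), mem_sn (show 1 < 3 by norm_num),
      mem_sn (show 2 < 3 by norm_num)]
    omega

/-- `3k + 1, 3m + 1, 3l + 1`, all `≥ 4` -/
theorem p3 (k m l : ℕ) : Good 0 (k + m + l + 4) ↑[3 * k + 4, 3 * m + 4, 3 * l + 4] := by
  refine ⟨[(0, 0) :: (sn 1 1 k ++ [(k + m + l + 1, 1), (k + m + l + 3, 2), (k + m + l + 2, 1)]),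
    (0, 1) :: (sn 2 (k + 1) m ++
      [(k + m + l + 1, 2), (k + m + l + 3, 0), (k + m + l + 2, 2)]),
    (0, 2) :: (sn 0 (k + m + 1) l ++
      [(k + m + l + 1, 0), (k + m + l + 3, 1), (k + m + l + 2, 0)])], ?_, ?_, ?_⟩
  · congr 1
    simp only [List.map_cons, List.map_nil, List.length_cons, List.length_append,
      List.length_nil, length_sn, List.cons.injEq, and_true]
    try omega
  · simp only [List.mem_cons, List.not_mem_nil, or_false, forall_eq_or_imp, forall_eq]
    repeat' apply And.intro
    all_goals first
      | exact ok_single _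
      | (apply ok_cons
         simp only [List.append_assoc, List.cons_append, List.nil_append]
         refine chain_sn (fun _ _ => adj_of_up) (by norm_num) _ _ _ _ _ (fun _ => ?_)
           (fun _ => ?_) (fun _ => ?_) ?_
         · exact adj_arith (by omega)
         · exact adj_arith (by omega)
         · exact adj_arith (by omega)
         · simp only [List.isChain_cons_cons, List.isChain_singleton, and_true]
           repeat' apply And.intro
           all_goals exact adj_arith (by omega))
  · rintro ⟨i, d⟩
    simp only [List.flatten_cons, List.flatten_nil, List.mem_cons, List.mem_append,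
      List.append_nil, List.not_mem_nil, or_false, Prod.mk.injEq, Slots,
      mem_sn (show 0 < 3 by norm_num), mem_sn (show 1 < 3 by norm_num),
      mem_sn (show 2 < 3 by norm_num)]
    omega

/-- `3k + 1, 3m + 1, 1`, the first two `≥ 4` -/
theorem p3a (k m : ℕ) : Good 0 (k + m + 3) ↑[3 * k + 4, 3 * m + 4, 1] := by
  refine ⟨[(0, 0) :: (sn 1 1 k ++ [(k + m + 1, 1), (k + m + 1, 2), (0, 1)]),
    (0, 2) :: (sn 0 (k + 1) m ++ [(k + m + 1, 0), (k + m + 2, 1), (k + m + 2, 0)]),
    [(k + m + 2, 2)]], ?_, ?_, ?_⟩
  · congr 1
    simp only [List.map_cons, List.map_nil, List.length_cons, List.length_append,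
      List.length_nil, length_sn, List.cons.injEq, and_true]
    try omega
  · simp only [List.mem_cons, List.not_mem_nil, or_false, forall_eq_or_imp, forall_eq]
    repeat' apply And.intro
    all_goals first
      | exact ok_single _
      | (apply ok_cons
         simp only [List.append_assoc, List.cons_append, List.nil_append]
         refine chain_sn (fun _ _ => adj_of_up) (by norm_num) _ _ _ _ _ (fun _ => ?_)
           (fun _ => ?_) (fun _ => ?_) ?_
         · exact adj_arith (by omega)
         · exact adj_arith (by omega)
         · exact adj_arith (by omega)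
         · simp only [List.isChain_cons_cons, List.isChain_singleton, and_true]
           repeat' apply And.intro
           all_goals exact adj_arith (by omega))
  · rintro ⟨i, d⟩
    simp only [List.flatten_cons, List.flatten_nil, List.mem_cons, List.mem_append,
      List.append_nil, List.not_mem_nil, or_false, Prod.mk.injEq, Slots,
      mem_sn (show 0 < 3 by norm_num), mem_sn (show 1 < 3 by norm_num),
      mem_sn (show 2 < 3 by norm_num)]
    omega

/-- `3k + 1, 1, 1` -/
theorem p3b (k : ℕ) : Good 0 (k + 2) ↑[3 * k + 4, 1, 1] := by
  refine ⟨[(0, 0) :: (sn 1 1 k ++ [(k + 1, 1), (k + 1, 2), (0, 1)]),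
    [(0, 2)], [(k + 1, 0)]], ?_, ?_, ?_⟩
  · congr 1
    simp only [List.map_cons, List.map_nil, List.length_cons, List.length_append,
      List.length_nil, length_sn, List.cons.injEq, and_true]
    try omega
  · simp only [List.mem_cons, List.not_mem_nil, or_false, forall_eq_or_imp, forall_eq]
    repeat' apply And.intro
    all_goals first
      | exact ok_single _
      | (apply ok_cons
         simp only [List.append_assoc, List.cons_append, List.nil_append]
         refine chain_sn (fun _ _ => adj_of_up) (by norm_num) _ _ _ _ _ (fun _ => ?_)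
           (fun _ => ?_) (fun _ => ?_) ?_
         · exact adj_arith (by omega)
         · exact adj_arith (by omega)
         · exact adj_arith (by omega)
         · simp only [List.isChain_cons_cons, List.isChain_singleton, and_true]
           repeat' apply And.intro
           all_goals exact adj_arith (by omega))
  · rintro ⟨i, d⟩
    simp only [List.flatten_cons, List.flatten_nil, List.mem_cons, List.mem_append,
      List.append_nil, List.not_mem_nil, or_false, Prod.mk.injEq, Slots,
      mem_sn (show 0 < 3 by norm_num), mem_sn (show 1 < 3 by norm_num),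
      mem_sn (show 2 < 3 by norm_num)]
    omega

/-- `1, 1, 1` -/
theorem p3c : Good 0 1 ↑[1, 1, 1] := by
  refine ⟨[[(0, 0)], [(0, 1)], [(0, 2)]], ?_, ?_, ?_⟩
  · rfl
  · simp only [List.mem_cons, List.not_mem_nil, or_false, forall_eq_or_imp, forall_eq]
    repeat' apply And.intro
    all_goals first
      | exact ok_single _
      | (apply ok_cons
         simp only [List.append_assoc, List.cons_append, List.nil_append]
         refine chain_sn (fun _ _ => adj_of_up) (by norm_num) _ _ _ _ _ (fun _ => ?_)
           (fun _ => ?_) (fun _ => ?_) ?_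
         · exact adj_arith (by omega)
         · exact adj_arith (by omega)
         · exact adj_arith (by omega)
         · simp only [List.isChain_cons_cons, List.isChain_singleton, and_true]
           repeat' apply And.intro
           all_goals exact adj_arith (by omega))
  · rintro ⟨i, d⟩
    simp only [List.flatten_cons, List.flatten_nil, List.mem_cons, List.mem_append,
      List.append_nil, List.not_mem_nil, or_false, Prod.mk.injEq, Slots,
      mem_sn (show 0 < 3 by norm_num), mem_sn (show 1 < 3 by norm_num),
      mem_sn (show 2 < 3 by norm_num)]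
    omega

/-- `∅` -/
theorem q0 : Good 0 0 ↑([] : List ℕ) := by
  refine ⟨[], rfl, by simp, ?_⟩
  rintro ⟨i, d⟩
  simp only [List.flatten_nil, List.not_mem_nil, Slots, false_iff]
  omega

/-- Remainder 1: `3k + 1` -/
theorem q1 (k : ℕ) : Good 1 k ↑[3 * k + 1] := by
  refine ⟨[(0, 3) :: sn 2 0 k], ?_, ?_, ?_⟩
  · congr 1
    simp only [List.map_cons, List.map_nil, List.length_cons, List.length_append,
      List.length_nil, length_sn, List.cons.injEq, and_true]
    try omega
  · simp only [List.mem_cons, List.not_mem_nil, or_false, forall_eq]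
    rcases Nat.eq_zero_or_pos k with rfl | hk
    · rw [sn_zero]; exact ok_single _
    · apply ok_cons
      refine chain_sn (fun _ _ => adj_of_up) (by norm_num) _ _ _ _ _ (fun h => by omega)
        (fun _ => ?_) (fun _ => ?_) ?_
      · exact adj_arith (by omega)
      · exact adj_arith (by omega)
      · simp
  · rintro ⟨i, d⟩
    simp only [List.flatten_cons, List.flatten_nil, List.mem_cons, List.mem_append,
      List.append_nil, List.not_mem_nil, or_false, Prod.mk.injEq, Slots,
      mem_sn (show 0 < 3 by norm_num), mem_sn (show 1 < 3 by norm_num),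
      mem_sn (show 2 < 3 by norm_num)]
    omega

/-- Remainder 1: `3k + 2, 3m + 2` -/
theorem q1a (k m : ℕ) : Good 1 (k + m + 1) ↑[3 * k + 2, 3 * m + 2] := by
  refine ⟨[(0, 3) :: (sn 1 0 k ++ [(k, 1)]), (k, 0) :: (sn 1 (k + 1) m ++ [(k, 2)])],
    ?_, ?_, ?_⟩
  · congr 1
    simp only [List.map_cons, List.map_nil, List.length_cons, List.length_append,
      List.length_nil, length_sn, List.cons.injEq, and_true]
    try omega
  · simp only [List.mem_cons, List.not_mem_nil, or_false, forall_eq_or_imp, forall_eq]
    repeat' apply And.intro
    all_goals first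
      | exact ok_single _
      | (apply ok_cons
         simp only [List.append_assoc, List.cons_append, List.nil_append]
         refine chain_sn (fun _ _ => adj_of_up) (by norm_num) _ _ _ _ _ (fun _ => ?_)
           (fun _ => ?_) (fun _ => ?_) ?_
         · exact adj_arith (by omega)
         · exact adj_arith (by omega)
         · exact adj_arith (by omega)
         · simp only [List.isChain_cons_cons, List.isChain_singleton, and_true]
           repeat' apply And.intro
           all_goals exact adj_arith (by omega))
  · rintro ⟨i, d⟩
    simp only [List.flatten_cons, List.flatten_nil, List.mem_cons, List.mem_append,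
      List.append_nil, List.not_mem_nil, or_false, Prod.mk.injEq, Slots,
      mem_sn (show 0 < 3 by norm_num), mem_sn (show 1 < 3 by norm_num),
      mem_sn (show 2 < 3 by norm_num)]
    omega

/-- Remainder 2: `3k + 2` -/
theorem q2 (k : ℕ) : Good 2 k ↑[3 * k + 2] := by
  refine ⟨[(0, 4) :: (sn 2 0 k ++ [(0, 3)])], ?_, ?_, ?_⟩
  · congr 1
    simp only [List.map_cons, List.map_nil, List.length_cons, List.length_append,
      List.length_nil, length_sn, List.cons.injEq, and_true]
    try omega
  · simp only [List.mem_cons, List.not_mem_nil, or_false, forall_eq_or_imp, forall_eq]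
    repeat' apply And.intro
    all_goals first
      | exact ok_single _
      | (apply ok_cons
         simp only [List.append_assoc, List.cons_append, List.nil_append]
         refine chain_sn (fun _ _ => adj_of_up) (by norm_num) _ _ _ _ _ (fun _ => ?_)
           (fun _ => ?_) (fun _ => ?_) ?_
         · exact adj_arith (by omega)
         · exact adj_arith (by omega)
         · exact adj_arith (by omega)
         · simp only [List.isChain_cons_cons, List.isChain_singleton, and_true]
           repeat' apply And.intro
           all_goals exact adj_arith (by omega))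
  · rintro ⟨i, d⟩
    simp only [List.flatten_cons, List.flatten_nil, List.mem_cons, List.mem_append,
      List.append_nil, List.not_mem_nil, or_false, Prod.mk.injEq, Slots,
      mem_sn (show 0 < 3 by norm_num), mem_sn (show 1 < 3 by norm_num),
      mem_sn (show 2 < 3 by norm_num)]
    omega

/-- Remainder 2: `3k + 1, 3m + 1`, both `≥ 4` -/
theorem q2a (k m : ℕ) : Good 2 (k + m + 2) ↑[3 * k + 4, 3 * m + 4] := by
  refine ⟨[(0, 1) :: (sn 2 1 k ++ [(k + m + 1, 2), (0, 4), (0, 0)]),
    (0, 2) :: (sn 0 (k + 1) m ++ [(k + m + 1, 0), (k + m + 1, 1), (0, 3)])],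
    ?_, ?_, ?_⟩
  · congr 1
    simp only [List.map_cons, List.map_nil, List.length_cons, List.length_append,
      List.length_nil, length_sn, List.cons.injEq, and_true]
    try omega
  · simp only [List.mem_cons, List.not_mem_nil, or_false, forall_eq_or_imp, forall_eq]
    repeat' apply And.intro
    all_goals first
      | exact ok_single _
      | (apply ok_cons
         simp only [List.append_assoc, List.cons_append, List.nil_append]
         refine chain_sn (fun _ _ => adj_of_up) (by norm_num) _ _ _ _ _ (fun _ => ?_)
           (fun _ => ?_) (fun _ => ?_) ?_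
         · exact adj_arith (by omega)
         · exact adj_arith (by omega)
         · exact adj_arith (by omega)
         · simp only [List.isChain_cons_cons, List.isChain_singleton, and_true]
           repeat' apply And.intro
           all_goals exact adj_arith (by omega))
  · rintro ⟨i, d⟩
    simp only [List.flatten_cons, List.flatten_nil, List.mem_cons, List.mem_append,
      List.append_nil, List.not_mem_nil, or_false, Prod.mk.injEq, Slots,
      mem_sn (show 0 < 3 by norm_num), mem_sn (show 1 < 3 by norm_num),
      mem_sn (show 2 < 3 by norm_num)]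
    omega

/-- Remainder 2: `3k + 1, 1` -/
theorem q2b (k : ℕ) : Good 2 k ↑[3 * k + 1, 1] := by
  refine ⟨[(0, 3) :: sn 2 0 k, [(0, 4)]], ?_, ?_, ?_⟩
  · congr 1
    simp only [List.map_cons, List.map_nil, List.length_cons, List.length_append,
      List.length_nil, length_sn, List.cons.injEq, and_true]
    try omega
  · simp only [List.mem_cons, List.not_mem_nil, or_false, forall_eq_or_imp, forall_eq]
    refine ⟨?_, ok_single _⟩
    rcases Nat.eq_zero_or_pos k with rfl | hk
    · rw [sn_zero]; exact ok_single _
    · apply ok_cons
      refine chain_sn (fun _ _ => adj_of_up) (by norm_num) _ _ _ _ _ (fun h => by omega)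
        (fun _ => ?_) (fun _ => ?_) ?_
      · exact adj_arith (by omega)
      · exact adj_arith (by omega)
      · simp
  · rintro ⟨i, d⟩
    simp only [List.flatten_cons, List.flatten_nil, List.mem_cons, List.mem_append,
      List.append_nil, List.not_mem_nil, or_false, Prod.mk.injEq, Slots,
      mem_sn (show 0 < 3 by norm_num), mem_sn (show 1 < 3 by norm_num),
      mem_sn (show 2 < 3 by norm_num)]
    omega

end Pool.Agent.Helper51.PSC
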