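import Pool.Agent.Helper51.PSC.Realize

/-!
# From cyclic lists to permutations (for MP_b6b2d3_co)
-/

namespace Pool.Agent.Helper51.PSC

open Equiv

section lists

variable {α : Type*} [DecidableEq α]

/-- Product of the cycles of a list of lists. -/
def prodP (LL : List (List α)) : Perm α := (LL.map List.formPerm).prod

theorem prodP_nil : prodP ([] : List (List α)) = 1 := rfl

theorem prodP_cons (l : List α) (LL : List (List α)) :
    prodP (l :: LL) = l.formPerm * prodP LL := by
  simp [prodP]

theorem prodP_fix {LL : List (List α)} {x : α} (h : x ∉ LL.flatten) : prodP LL x = x := by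
  induction LL with
  | nil => rfl
  | cons l LL ih =>
      rw [List.flatten_cons, List.mem_append, not_or] at h
      rw [prodP_cons, Perm.mul_apply, ih h.2, List.formPerm_apply_of_notMem h.1]

theorem prodP_apply {LL : List (List α)} (hnd : LL.flatten.Nodup) {l : List α} (hl : l ∈ LL)
    {x : α} (hx : x ∈ l) : prodP LL x = l.formPerm x := by
  induction LL with
  | nil => simp at hl
  | cons l0 LL ih =>
      rw [List.flatten_cons, List.nodup_append'] at hnd
      obtain ⟨h1, h2, h3⟩ := hnd
      rw [prodP_cons, Perm.mul_apply]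
      rcases List.mem_cons.1 hl with rfl | hl
      · rw [prodP_fix (fun h => h3 hx h)]
      · rw [ih h2 hl]
        refine List.formPerm_apply_of_notMem (fun h => h3 h ?_)
        exact List.mem_flatten.2 ⟨l, hl, List.formPerm_apply_mem_of_mem hx⟩

theorem prodP_cycleType [Fintype α] {LL : List (List α)} (hnd : LL.flatten.Nodup) :
    (prodP LL).cycleType = ((↑(LL.map List.length) : Multiset ℕ)).filter (fun k => 2 ≤ k) := by
  induction LL with
  | nil => simp [prodP_nil]
  | cons l0 LL ih =>
      rw [List.flatten_cons, List.nodup_append'] at hnd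
      obtain ⟨h1, h2, h3⟩ := hnd
      have hd : Perm.Disjoint l0.formPerm (prodP LL) := by
        intro x
        by_cases hx : x ∈ l0
        · right
          exact prodP_fix (fun h => h3 hx h)
        · left
          exact List.formPerm_apply_of_notMem hx
      rw [prodP_cons, hd.cycleType_mul, ih h2, List.map_cons, ← Multiset.cons_coe]
      by_cases hl : 2 ≤ l0.length
      · rw [Multiset.filter_cons_of_pos _ hl]
        have hc := List.isCycle_formPerm h1 hl
        rw [hc.cycleType, List.support_formPerm_of_nodup _ h1 (by rintro x rfl; simp at hl),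
          List.toFinset_card_of_nodup h1, Multiset.singleton_add]
      · rw [Multiset.filter_cons_of_neg _ hl]
        have : l0.formPerm = 1 := by
          match l0, hl with
          | [], _ => simp
          | [x], _ => simp
          | x :: y :: l, h => simp at h
        rw [this]
        simp

theorem ok_apply {R : α → α → Prop} {l : List α} (h : OK R l) (hnd : l.Nodup) {x : α}
    (hx : x ∈ l) : l.formPerm x = x ∨ R x (l.formPerm x) := by
  obtain ⟨a, l', rfl, h⟩ := h
  rcases h with rfl | h
  · left; simp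
  · right
    obtain ⟨i, hi, rfl⟩ := List.getElem_of_mem hx
    rw [List.formPerm_apply_getElem _ hnd]
    have h' := List.isChain_iff_getElem.1 h
    have hlen : (a :: l').length = l'.length + 1 := rfl
    have hi' : i + 1 < (a :: (l' ++ [a])).length := by
      simp only [List.length_cons, List.length_append, List.length_nil] at hi ⊢
      omega
    have h2 := h' i hi'
    have e1 : ∀ (j : ℕ) (hj : j < (a :: (l' ++ [a])).length) (hj' : j < (a :: l').length),
        (a :: (l' ++ [a]))[j] = (a :: l')[j] := by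
      intro j hj hj'
      have : a :: (l' ++ [a]) = (a :: l') ++ [a] := rfl
      simp only [this]
      rw [List.getElem_append_left hj']
    rw [e1 i _ hi] at h2
    rcases Nat.lt_or_ge (i + 1) (a :: l').length with hlt | hge
    · rw [e1 (i + 1) _ hlt] at h2
      simp only [Nat.mod_eq_of_lt hlt]
      exact h2
    · have hieq : i + 1 = (a :: l').length := by omega
      have e2 : (a :: (l' ++ [a]))[i + 1] = a := by
        have : a :: (l' ++ [a]) = (a :: l') ++ [a] := rfl
        simp only [this]
        rw [List.getElem_append_right hge]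
        simp
      rw [e2] at h2
      have e3 : (i + 1) % (a :: l').length = 0 := by rw [hieq, Nat.mod_self]
      simp only [e3, List.getElem_cons_zero]
      exact h2

end lists

/-- Two positions on a cycle of length `n` are at cyclic distance at least `t`. -/
def Far (n t a b : ℕ) : Prop := (a + t ≤ b ∧ b + t ≤ a + n) ∨ (b + t ≤ a ∧ a + t ≤ b + n)

theorem Far.symm {n t a b : ℕ} (h : Far n t a b) : Far n t b a := by
  rcases h with h | h
  · exact Or.inr h
  · exact Or.inl h

/-- A multiset of lengths is realised by cyclic lists of positions. -/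
def Realize (n t : ℕ) (m : Multiset ℕ) : Prop :=
  ∃ PP : List (List (Fin n)), (↑(PP.map List.length) : Multiset ℕ) = m ∧ PP.flatten.Nodup ∧
    ∀ l ∈ PP, OK (fun a b : Fin n => Far n t a b) l

/-- Positions of slots. -/
def pos (s t : ℕ) (x : ℕ × ℕ) : ℕ :=
  if x.2 = 4 then t else if x.2 = 3 then 3 * t + (s - 1)
  else x.1 + x.2 * t + (if 1 ≤ x.2 then s - 1 else 0)

theorem pos_lt {s t : ℕ} (hs : s < 3) {x : ℕ × ℕ} (hx : Slots s t x) : pos s t x < 3 * t + s := by
  obtain ⟨i, c⟩ := x
  rcases hx with ⟨h1, h2⟩ | ⟨h1, h2⟩ | ⟨h1, h2⟩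
  · simp only at h1 h2
    have hc : c = 0 ∨ c = 1 ∨ c = 2 := by omega
    rcases hc with rfl | rfl | rfl <;> simp [pos] <;> omega
  · simp only [Prod.mk.injEq] at h1
    obtain ⟨rfl, rfl⟩ := h1
    simp [pos]; omega
  · simp only [Prod.mk.injEq] at h1
    obtain ⟨rfl, rfl⟩ := h1
    simp [pos]; omega

theorem pos_surj {s t : ℕ} (hs : s < 3) {y : ℕ} (hy : y < 3 * t + s) :
    ∃ x, Slots s t x ∧ pos s t x = y := by
  have hs' : s = 0 ∨ s = 1 ∨ s = 2 := by omega
  by_cases h1 : y < t
  · exact ⟨(y, 0), Or.inl ⟨h1, by norm_num⟩, by simp [pos]⟩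
  rcases hs' with rfl | rfl | rfl
  · by_cases h2 : y < 2 * t
    · refine ⟨(y - t, 1), Or.inl ⟨by simp only; omega, by norm_num⟩, ?_⟩
      simp [pos]; omega
    · refine ⟨(y - 2 * t, 2), Or.inl ⟨by simp only; omega, by norm_num⟩, ?_⟩
      simp [pos]; omega
  · by_cases h2 : y < 2 * t
    · refine ⟨(y - t, 1), Or.inl ⟨by simp only; omega, by norm_num⟩, ?_⟩
      simp [pos]; omega
    · by_cases h3 : y < 3 * t
      · refine ⟨(y - 2 * t, 2), Or.inl ⟨by simp only; omega, by norm_num⟩, ?_⟩
        simp [pos]; omega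
      · refine ⟨(0, 3), Or.inr (Or.inl ⟨rfl, le_rfl⟩), ?_⟩
        simp [pos]; omega
  · by_cases h2 : y = t
    · refine ⟨(0, 4), Or.inr (Or.inr ⟨rfl, le_rfl⟩), ?_⟩
      simp [pos]; omega
    by_cases h2 : y < 2 * t + 1
    · refine ⟨(y - t - 1, 1), Or.inl ⟨by simp only; omega, by norm_num⟩, ?_⟩
      simp [pos]; omega
    · by_cases h3 : y < 3 * t + 1
      · refine ⟨(y - 2 * t - 1, 2), Or.inl ⟨by simp only; omega, by norm_num⟩, ?_⟩
        simp [pos]; omega
      · refine ⟨(0, 3), Or.inr (Or.inl ⟨rfl, by norm_num⟩), ?_⟩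
        simp [pos]; omega

theorem pos_far' {s t : ℕ} (hs : s < 3) {x y : ℕ × ℕ} (hx : Slots s t x) (hy : Slots s t y)
    (h : AdjS x y) : Far (3 * t + s) t (pos s t x) (pos s t y) := by
  have hs' : s = 0 ∨ s = 1 ∨ s = 2 := by omega
  obtain ⟨i, c⟩ := x
  obtain ⟨j, d⟩ := y
  rcases h with ⟨h1, h2, h3⟩ | ⟨h1, h2⟩ | ⟨h1, h2⟩
  · simp only at h1 h2 h3
    have hc : c = 0 ∨ c = 1 ∨ c = 2 := by omega
    have hi : i < t := by
      rcases hx with h | h | h
      · exact h.1
      · simp only [Prod.mk.injEq] at h; omega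
      · simp only [Prod.mk.injEq] at h; omega
    have hj : j < t := by
      rcases hy with h | h | h
      · exact h.1
      · simp only [Prod.mk.injEq] at h; omega
      · simp only [Prod.mk.injEq] at h; omega
    rcases hs' with rfl | rfl | rfl <;> rcases hc with rfl | rfl | rfl <;>
      norm_num at h3 <;> subst h3 <;> simp [pos, Far] <;> omega
  · simp only [Prod.mk.injEq] at h1
    obtain ⟨rfl, rfl⟩ := h1
    have hs1 : 1 ≤ s := by
      rcases hx with h | h | h
      · omega
      · exact h.2
      · simp at h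
    rcases h2 with h2 | h2 | h2
    · simp only at h2
      subst h2
      have hj : j < t := by
        rcases hy with h | h | h
        · exact h.1
        · simp only [Prod.mk.injEq] at h; omega
        · simp only [Prod.mk.injEq] at h; omega
      rcases hs' with rfl | rfl | rfl <;> simp [pos, Far] <;> omega
    · simp only [Prod.mk.injEq] at h2
      obtain ⟨rfl, rfl⟩ := h2
      rcases hs' with rfl | rfl | rfl <;> simp [pos, Far] <;> omega
    · simp only [Prod.mk.injEq] at h2
      obtain ⟨rfl, rfl⟩ := h2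
      rcases hs' with rfl | rfl | rfl <;> simp [pos, Far] <;> omega
  · simp only [Prod.mk.injEq] at h1
    obtain ⟨rfl, rfl⟩ := h1
    have hs1 : 2 ≤ s := by
      rcases hx with h | h | h
      · omega
      · simp at h
      · exact h.2
    have hs2 : s = 2 := by omega
    subst hs2
    rcases h2 with h2 | h2
    · simp only at h2
      subst h2
      have hj : j < t := by
        rcases hy with h | h | h
        · exact h.1
        · simp only [Prod.mk.injEq] at h; omega
        · simp only [Prod.mk.injEq] at h; omega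
      simp [pos, Far]; omega
    · simp only [Prod.mk.injEq] at h2
      obtain ⟨rfl, rfl⟩ := h2
      simp [pos, Far]; omega

theorem nodup_of_cover {n : ℕ} {l : List (Fin n)} (hlen : l.length = n) (h : ∀ x, x ∈ l) :
    l.Nodup := by
  have h1 : l.toFinset = Finset.univ := by
    ext x; simp [h x]
  have h2 : l.toFinset.card = l.length := by rw [h1, hlen]; simp
  exact Multiset.coe_nodup.1 (Multiset.toFinset_card_eq_card_iff_nodup.1 h2)

theorem realize_gen {n t : ℕ} (hn : 0 < n) (S : ℕ × ℕ → Prop) (A : ℕ × ℕ → ℕ × ℕ → Prop)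
    (p : ℕ × ℕ → ℕ) (hlt : ∀ x, S x → p x < n) (hsurj : ∀ y, y < n → ∃ x, S x ∧ p x = y)
    (hfar : ∀ x y, S x → S y → A x y → Far n t (p x) (p y)) {m : Multiset ℕ} (hm : m.sum = n)
    (h : ∃ LL : List (List (ℕ × ℕ)), (↑(LL.map List.length) : Multiset ℕ) = m ∧
      (∀ l ∈ LL, OK A l) ∧ ∀ x, x ∈ LL.flatten ↔ S x) : Realize n t m := by
  obtain ⟨LL, h1, h2, h3⟩ := h
  set f : ℕ × ℕ → Fin n := fun x => ⟨p x % n, Nat.mod_lt _ hn⟩ with hf
  have hfv : ∀ x, S x → (f x : ℕ) = p x := fun x hx => Nat.mod_eq_of_lt (hlt x hx)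
  have hlenmap : List.map List.length (List.map (List.map f) LL) = List.map List.length LL := by
    rw [List.map_map]
    apply List.map_congr_left
    intro l _
    simp
  refine ⟨LL.map (List.map f), ?_, ?_, ?_⟩
  · rw [hlenmap, h1]
  · apply nodup_of_cover
    · rw [List.length_flatten, hlenmap, ← hm, ← h1, Multiset.sum_coe]
    · intro y
      obtain ⟨x, hx, hxy⟩ := hsurj y.1 y.2
      obtain ⟨l, hl, hxl⟩ := List.mem_flatten.1 ((h3 x).2 hx)
      refine List.mem_flatten.2 ⟨l.map f, List.mem_map.2 ⟨l, hl, rfl⟩, List.mem_map.2 ⟨x, hxl, ?_⟩⟩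
      exact Fin.ext (by rw [hfv x hx, hxy])
  · intro l hl
    obtain ⟨l0, hl0, rfl⟩ := List.mem_map.1 hl
    obtain ⟨x, l', hx, hc⟩ := h2 l0 hl0
    refine ⟨f x, l'.map f, by rw [hx]; rfl, ?_⟩
    rcases hc with hc | hc
    · left; rw [hc]; rfl
    · right
      have e : f x :: (List.map f l' ++ [f x]) = List.map f (x :: (l' ++ [x])) := by simp
      rw [e, List.isChain_map]
      have hmem : ∀ y ∈ x :: (l' ++ [x]), S y := by
        intro y hy
        have hy' : y ∈ l0 := by
          rw [hx]
          simp only [List.mem_cons, List.mem_append, List.not_mem_nil, or_false] at hy ⊢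
          tauto
        exact (h3 y).1 (List.mem_flatten.2 ⟨l0, hl0, hy'⟩)
      refine List.IsChain.imp_of_mem_imp ?_ hc
      intro a b ha hb hab
      have ha' := hmem a ha
      have hb' := hmem b hb
      simp only [hfv a ha', hfv b hb']
      exact hfar a b ha' hb' hab

/-- **Realisation in threes.** -/
theorem realize_three {n : ℕ} (hn : 0 < n) {m : Multiset ℕ} (hpos : ∀ a ∈ m, 1 ≤ a)
    (hm : m.sum = n) : Realize n (n / 3) m := by
  have e : n = 3 * (n / 3) + n % 3 := by omega
  have hs : n % 3 < 3 := Nat.mod_lt _ (by norm_num)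
  have hm' : m.sum = 3 * (n / 3) + n % 3 := by omega
  have h1 := good_all (n % 3) hs _ m (n / 3) rfl hpos hm'
  refine realize_gen hn (Slots (n % 3) (n / 3)) Adj (pos (n % 3) (n / 3)) ?_ ?_ ?_ hm h1
  · intro x hx
    have := pos_lt hs hx
    omega
  · intro y hy
    exact pos_surj hs (by omega)
  · intro x y hx hy h
    have key : ∀ x y, Slots (n % 3) (n / 3) x → Slots (n % 3) (n / 3) y → AdjS x y →
        Far n (n / 3) (pos (n % 3) (n / 3) x) (pos (n % 3) (n / 3) y) := by
      intro x y hx hy h
      have := pos_far' hs hx hy h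
      rwa [← e] at this
    rcases h with h | h
    · exact key x y hx hy h
    · exact (key y x hy hx h).symm

/-- Slots of the two-level model. -/
def Slots2 (s T : ℕ) (x : ℕ × ℕ) : Prop := (x.1 < T ∧ x.2 < 2) ∨ (x = (0, 2) ∧ 1 ≤ s)

/-- Adjacency in the two-level model. -/
def Adj2 (x y : ℕ × ℕ) : Prop := (x.1 = y.1) ∧ ((x.2 = 0 ∧ y.2 = 1) ∨ (x.2 = 1 ∧ y.2 = 0))

theorem good_two (s : ℕ) (hs : s < 2) : ∀ (T : ℕ) (m : Multiset ℕ), (∀ a ∈ m, a = 1 ∨ a = 2) →
    m.sum = 2 * T + s → ∃ LL : List (List (ℕ × ℕ)), (↑(LL.map List.length) : Multiset ℕ) = m ∧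
      (∀ l ∈ LL, OK Adj2 l) ∧ ∀ x, x ∈ LL.flatten ↔ Slots2 s T x := by
  intro T
  induction T with
  | zero =>
      intro m hm hsum
      have hs' : s = 0 ∨ s = 1 := by omega
      rcases Multiset.empty_or_exists_mem m with rfl | ⟨a, ha⟩
      · rw [Multiset.sum_zero] at hsum
        have hs0 : s = 0 := by omega
        subst hs0
        refine ⟨[], rfl, by simp, ?_⟩
        rintro ⟨i, d⟩
        simp [Slots2]
      · obtain ⟨m', rfl⟩ := Multiset.exists_cons_of_mem ha
        rw [Multiset.sum_cons] at hsum
        have ha' := hm a ha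
        have ha1 : a = 1 := by omega
        have hs1 : s = 1 := by omega
        have hm0 : m' = 0 := by
          rcases Multiset.empty_or_exists_mem m' with h | ⟨b, hb⟩
          · exact h
          · exfalso
            have := hm b (Multiset.mem_cons_of_mem hb)
            have h2 := Multiset.single_le_sum (fun _ _ => Nat.zero_le _) b hb
            omega
        subst ha1 hs1 hm0
        refine ⟨[[(0, 2)]], rfl, ?_, ?_⟩
        · intro l hl
          rw [List.mem_singleton] at hl
          subst hl
          exact ⟨(0, 2), [], rfl, Or.inl rfl⟩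
        · rintro ⟨i, d⟩
          simp [Slots2]
  | succ T ih =>
      intro m hm hsum
      by_cases h2 : 2 ∈ m
      · obtain ⟨m', rfl⟩ := Multiset.exists_cons_of_mem h2
        rw [Multiset.sum_cons] at hsum
        obtain ⟨LL, h1, h2, h3⟩ := ih m' (fun a ha => hm a (Multiset.mem_cons_of_mem ha))
          (by omega)
        refine ⟨[(T, 0), (T, 1)] :: LL, ?_, ?_, ?_⟩
        · rw [← h1]; rfl
        · intro l hl
          rcases List.mem_cons.1 hl with rfl | hl
          · refine ⟨(T, 0), [(T, 1)], rfl, Or.inr ?_⟩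
            simp [Adj2]
          · exact h2 l hl
        · rintro ⟨i, d⟩
          rw [List.flatten_cons, List.mem_append, h3]
          simp only [Slots2, List.mem_cons, List.not_mem_nil, or_false, Prod.mk.injEq]
          omega
      · have h1m : ∀ a ∈ m, a = 1 := by
          intro a ha
          rcases hm a ha with h | h
          · exact h
          · exact absurd (h ▸ ha) h2
        have hcard := Multiset.eq_replicate_of_mem h1m
        have hc : m.sum = Multiset.card m := by
          conv_lhs => rw [hcard]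
          simp
        obtain ⟨k, hk⟩ : ∃ k, Multiset.card m = k + 2 := ⟨Multiset.card m - 2, by omega⟩
        rw [hk, Multiset.replicate_succ, Multiset.replicate_succ] at hcard
        obtain ⟨LL, h1, h2, h3⟩ := ih (Multiset.replicate k 1)
          (fun a ha => Or.inl (Multiset.eq_of_mem_replicate ha)) (by simp; omega)
        refine ⟨[(T, 0)] :: [(T, 1)] :: LL, ?_, ?_, ?_⟩
        · rw [hcard, ← h1]; rfl
        · intro l hl
          rcases List.mem_cons.1 hl with rfl | hl
          · exact ⟨(T, 0), [], rfl, Or.inl rfl⟩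
          rcases List.mem_cons.1 hl with rfl | hl
          · exact ⟨(T, 1), [], rfl, Or.inl rfl⟩
          · exact h2 l hl
        · rintro ⟨i, d⟩
          rw [List.flatten_cons, List.mem_append, List.flatten_cons, List.mem_append, h3]
          simp only [Slots2, List.mem_cons, List.not_mem_nil, or_false, Prod.mk.injEq]
          omega

/-- **Realisation in twos.** -/
theorem realize_two {n : ℕ} (hn : 0 < n) {m : Multiset ℕ} (hpos : ∀ a ∈ m, a = 1 ∨ a = 2)
    (hm : m.sum = n) : Realize n (n / 2) m := by
  have hm' : m.sum = 2 * (n / 2) + n % 2 := by omega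
  have h1 := good_two (n % 2) (by omega) (n / 2) m hpos hm'
  refine realize_gen hn (Slots2 (n % 2) (n / 2)) Adj2
    (fun x => if x.2 = 2 then 2 * (n / 2) else x.1 + x.2 * (n / 2)) ?_ ?_ ?_ hm h1
  · rintro ⟨i, c⟩ hx
    rcases hx with ⟨h1, h2⟩ | ⟨h1, h2⟩
    · simp only at h1 h2
      have hc : c = 0 ∨ c = 1 := by omega
      rcases hc with rfl | rfl <;> simp <;> omega
    · simp only [Prod.mk.injEq] at h1
      obtain ⟨rfl, rfl⟩ := h1
      simp; omega
  · intro y hy
    by_cases h1 : y < n / 2
    · exact ⟨(y, 0), Or.inl ⟨h1, by norm_num⟩, by simp⟩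
    by_cases h2 : y < 2 * (n / 2)
    · refine ⟨(y - n / 2, 1), Or.inl ⟨by simp only; omega, by norm_num⟩, ?_⟩
      simp; omega
    · refine ⟨(0, 2), Or.inr ⟨rfl, by omega⟩, ?_⟩
      simp; omega
  · rintro ⟨i, c⟩ ⟨j, d⟩ hx hy ⟨h1, h2⟩
    simp only at h1 h2
    rcases h2 with ⟨rfl, rfl⟩ | ⟨rfl, rfl⟩ <;> simp [Far] <;> omega

end Pool.Agent.Helper51.PSC
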