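import Pool.Agent.Helper51.PSC.Patterns

/-!
# Every multiset of lengths is realised (for MP_b6b2d3_co)
-/

namespace Pool.Agent.Helper51.PSC

theorem good_all (s : ℕ) (hs : s < 3) : ∀ (N : ℕ) (m : Multiset ℕ) (T : ℕ), Multiset.card m = N →
    (∀ a ∈ m, 1 ≤ a) → m.sum = 3 * T + s → Good s T m := by
  intro N
  induction N using Nat.strong_induction_on with
  | _ N ih =>
  intro m T hN hpos hsum
  have step : ∀ (q m' : Multiset ℕ) (T' : ℕ), m = m' + q → 0 < Multiset.card q → Good 0 T' q →
      q.sum = 3 * T' → Good s T m := by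
    intro q m' T' hm hq hG hqs
    have h1 : Multiset.card m' < N := by
      rw [← hN, hm, Multiset.card_add]; omega
    have hs2 : m'.sum + 3 * T' = 3 * T + s := by
      rw [← hsum, hm, Multiset.sum_add, hqs]
    have h2 : m'.sum = 3 * (T - T') + s := by omega
    have h3 := good_add (ih _ h1 m' (T - T') rfl
      (fun a ha => hpos a (by rw [hm]; exact Multiset.mem_add.2 (Or.inl ha))) h2) hG
    rw [hm]
    have e : T - T' + T' = T := by omega
    rwa [e] at h3
  have two : ∀ a b : ℕ, a ∈ m → b ∈ m → a ≠ b → ∃ m' : Multiset ℕ, m = m' + ↑[a, b] := by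
    intro a b ha hb hab
    obtain ⟨m1, h1⟩ := Multiset.exists_cons_of_mem ha
    rw [h1, Multiset.mem_cons] at hb
    rcases hb with hb | hb
    · exact absurd hb.symm hab
    obtain ⟨m2, h2⟩ := Multiset.exists_cons_of_mem hb
    refine ⟨m2, ?_⟩
    rw [h1, h2, ← Multiset.cons_coe, ← Multiset.cons_coe, Multiset.coe_nil,
      Multiset.add_cons, Multiset.add_cons, add_zero]
  by_cases h0 : ∃ a ∈ m, a % 3 = 0
  · obtain ⟨a, ha, ha0⟩ := h0
    have hp := hpos a ha
    obtain ⟨m', hm'⟩ := Multiset.exists_cons_of_mem ha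
    have e : a = 3 * (a / 3 - 1) + 3 := by omega
    refine step ↑[3 * (a / 3 - 1) + 3] m' (a / 3 - 1 + 1) ?_ (by simp) (p0 _) ?_
    · rw [← e, hm', Multiset.coe_singleton, Multiset.add_comm, Multiset.singleton_add]
    · simp; ring
  push Not at h0
  by_cases h12 : (∃ a ∈ m, a % 3 = 1) ∧ ∃ b ∈ m, b % 3 = 2
  · obtain ⟨⟨a, ha, ha1⟩, b, hb, hb2⟩ := h12
    obtain ⟨m', hm'⟩ := two a b ha hb (by rintro rfl; omega)
    rcases Nat.lt_or_ge a 4 with h4 | h4
    · have ea : a = 1 := by omega
      have eb : b = 3 * (b / 3) + 2 := by omega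
      refine step ↑[1, 3 * (b / 3) + 2] m' (b / 3 + 1) ?_ (by simp) (p1' _) ?_
      · rw [← eb, hm', ea]
      · simp; ring
    · have ea : a = 3 * (a / 3 - 1) + 4 := by omega
      have eb : b = 3 * (b / 3) + 2 := by omega
      refine step ↑[3 * (a / 3 - 1) + 4, 3 * (b / 3) + 2] m' (a / 3 - 1 + b / 3 + 2) ?_ (by simp)
        (p1 _ _) ?_
      · rw [← eb, ← ea, hm']
      · simp; ring
  by_cases hc : 3 ≤ Multiset.card m
  · -- three elements with the same residue
    obtain ⟨m', a, b, c, hm'⟩ : ∃ (m' : Multiset ℕ) (a b c : ℕ), m = m' + ↑[a, b, c] := by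
      obtain ⟨a, ha⟩ := Multiset.card_pos_iff_exists_mem.1 (show 0 < Multiset.card m by omega)
      obtain ⟨m1, h1⟩ := Multiset.exists_cons_of_mem ha
      have c1 : 2 ≤ Multiset.card m1 := by rw [h1, Multiset.card_cons] at hc; omega
      obtain ⟨b, hb⟩ := Multiset.card_pos_iff_exists_mem.1 (show 0 < Multiset.card m1 by omega)
      obtain ⟨m2, h2⟩ := Multiset.exists_cons_of_mem hb
      have c2 : 1 ≤ Multiset.card m2 := by rw [h2, Multiset.card_cons] at c1; omega
      obtain ⟨c, hc'⟩ := Multiset.card_pos_iff_exists_mem.1 (show 0 < Multiset.card m2 by omega)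
      obtain ⟨m3, h3⟩ := Multiset.exists_cons_of_mem hc'
      refine ⟨m3, a, b, c, ?_⟩
      rw [h1, h2, h3, ← Multiset.cons_coe, ← Multiset.cons_coe, ← Multiset.cons_coe,
        Multiset.coe_nil, Multiset.add_cons, Multiset.add_cons, Multiset.add_cons, add_zero]
    have ha : a ∈ m := by rw [hm']; simp
    have hb : b ∈ m := by rw [hm']; simp
    have hc' : c ∈ m := by rw [hm']; simp
    have a0 := h0 a ha
    have b0 := h0 b hb
    have c0 := h0 c hc'
    have perm3 : ∀ a b c : ℕ, (↑[a, b, c] : Multiset ℕ) = ↑[b, a, c] := fun a b c =>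
      Multiset.coe_eq_coe.2 (List.Perm.swap _ _ _)
    have perm3' : ∀ a b c : ℕ, (↑[a, b, c] : Multiset ℕ) = ↑[a, c, b] := fun a b c =>
      Multiset.coe_eq_coe.2 (List.Perm.cons _ (List.Perm.swap _ _ _))
    by_cases hm1 : ∃ a ∈ m, a % 3 = 1
    · have hn2 : ∀ b ∈ m, b % 3 ≠ 2 := fun b hb h => h12 ⟨hm1, b, hb, h⟩
      have a1 : a % 3 = 1 := by have := hn2 a ha; omega
      have b1 : b % 3 = 1 := by have := hn2 b hb; omega
      have c1 : c % 3 = 1 := by have := hn2 c hc'; omega
      -- the statement for sorted triples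
      have key : ∀ a b c : ℕ, a % 3 = 1 → b % 3 = 1 → c % 3 = 1 → c ≤ b → b ≤ a →
          ∃ T', Good 0 T' ↑[a, b, c] ∧ a + b + c = 3 * T' := by
        intro a b c a1 b1 c1 hcb hba
        by_cases hc4 : 4 ≤ c
        · have ea : a = 3 * (a / 3 - 1) + 4 := by omega
          have eb : b = 3 * (b / 3 - 1) + 4 := by omega
          have ec : c = 3 * (c / 3 - 1) + 4 := by omega
          refine ⟨a / 3 - 1 + (b / 3 - 1) + (c / 3 - 1) + 4, ?_, by omega⟩
          have := p3 (a / 3 - 1) (b / 3 - 1) (c / 3 - 1)
          rwa [← ea, ← eb, ← ec] at this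
        · have ec : c = 1 := by omega
          by_cases hb4 : 4 ≤ b
          · have ea : a = 3 * (a / 3 - 1) + 4 := by omega
            have eb : b = 3 * (b / 3 - 1) + 4 := by omega
            refine ⟨a / 3 - 1 + (b / 3 - 1) + 3, ?_, by omega⟩
            have := p3a (a / 3 - 1) (b / 3 - 1)
            rw [← ea, ← eb] at this
            rw [ec]
            exact this
          · have eb : b = 1 := by omega
            by_cases ha4 : 4 ≤ a
            · have ea : a = 3 * (a / 3 - 1) + 4 := by omega
              refine ⟨a / 3 - 1 + 2, ?_, by omega⟩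
              have := p3b (a / 3 - 1)
              rw [← ea] at this
              rw [eb, ec]
              exact this
            · have ea : a = 1 := by omega
              refine ⟨1, ?_, by omega⟩
              rw [ea, eb, ec]
              exact p3c
      have key2 : ∃ T', Good 0 T' ↑[a, b, c] ∧ a + b + c = 3 * T' := by
        rcases le_total a b with hab | hab <;> rcases le_total b c with hbc | hbc <;>
          rcases le_total a c with hac | hac
        · obtain ⟨T', h1, h2⟩ := key c b a c1 b1 a1 hab hbc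
          exact ⟨T', by rw [perm3, perm3', perm3]; exact h1, by omega⟩
        · obtain ⟨T', h1, h2⟩ := key c b a c1 b1 a1 hab hbc
          exact ⟨T', by rw [perm3, perm3', perm3]; exact h1, by omega⟩
        · obtain ⟨T', h1, h2⟩ := key b c a b1 c1 a1 hac hbc
          exact ⟨T', by rw [perm3, perm3']; exact h1, by omega⟩
        · obtain ⟨T', h1, h2⟩ := key b a c b1 a1 c1 hac hab
          exact ⟨T', by rw [perm3]; exact h1, by omega⟩
        · obtain ⟨T', h1, h2⟩ := key c a b c1 a1 b1 hab hac
          exact ⟨T', by rw [perm3', perm3]; exact h1, by omega⟩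
        · obtain ⟨T', h1, h2⟩ := key a c b a1 c1 b1 hbc hac
          exact ⟨T', by rw [perm3']; exact h1, by omega⟩
        · obtain ⟨T', h1, h2⟩ := key a b c a1 b1 c1 hbc hab
          exact ⟨T', h1, by omega⟩
        · obtain ⟨T', h1, h2⟩ := key a b c a1 b1 c1 hbc hab
          exact ⟨T', h1, by omega⟩
      obtain ⟨T', h1, h2⟩ := key2
      exact step _ m' T' hm' (by simp) h1 (by simp; omega)
    · push Not at hm1
      have a1 := hm1 a ha
      have b1 := hm1 b hb
      have c1 := hm1 c hc'
      have ea : a = 3 * (a / 3) + 2 := by omega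
      have eb : b = 3 * (b / 3) + 2 := by omega
      have ec : c = 3 * (c / 3) + 2 := by omega
      refine step ↑[3 * (a / 3) + 2, 3 * (b / 3) + 2, 3 * (c / 3) + 2] m'
        (a / 3 + b / 3 + c / 3 + 2) ?_ (by simp) (p2 _ _ _) ?_
      · rw [← ea, ← eb, ← ec, hm']
      · simp; ring
  · -- at most two elements
    have hc2 : Multiset.card m = 0 ∨ Multiset.card m = 1 ∨ Multiset.card m = 2 := by omega
    rcases hc2 with h | h | h
    · have hm0 := Multiset.card_eq_zero.1 h
      rw [hm0, Multiset.sum_zero] at hsum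
      have hs0 : s = 0 := by omega
      have hT0 : T = 0 := by omega
      rw [hs0, hT0, hm0]
      exact q0
    · obtain ⟨a, ha⟩ := Multiset.card_eq_one.1 h
      have a0 := h0 a (by rw [ha]; simp)
      rw [ha, Multiset.sum_singleton] at hsum
      have hcases : s = 1 ∨ s = 2 := by omega
      rcases hcases with rfl | rfl
      · rw [ha, hsum]
        exact q1 T
      · rw [ha, hsum]
        exact q2 T
    · obtain ⟨a, b, hab⟩ := Multiset.card_eq_two.1 h
      have ha : a ∈ m := by rw [hab]; simp
      have hb : b ∈ m := by rw [hab]; simp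
      have a0 := h0 a ha
      have b0 := h0 b hb
      have hs2 : a + b = 3 * T + s := by
        rw [← hsum, hab]; simp
      have hab' : m = ↑[a, b] := hab
      have perm2 : ∀ a b : ℕ, (↑[a, b] : Multiset ℕ) = ↑[b, a] := fun a b =>
        Multiset.coe_eq_coe.2 (List.Perm.swap _ _ _)
      by_cases hm1 : ∃ a ∈ m, a % 3 = 1
      · have hn2 : ∀ b ∈ m, b % 3 ≠ 2 := fun b hb h => h12 ⟨hm1, b, hb, h⟩
        have a1 : a % 3 = 1 := by have := hn2 a ha; omega
        have b1 : b % 3 = 1 := by have := hn2 b hb; omega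
        have hs' : s = 2 := by omega
        subst hs'
        rw [hab']
        have key : ∀ a b : ℕ, a % 3 = 1 → b % 3 = 1 → a + b = 3 * T + 2 → b ≤ a →
            Good 2 T ↑[a, b] := by
          intro a b a1 b1 hT hba
          by_cases hb4 : 4 ≤ b
          · have ea : a = 3 * (a / 3 - 1) + 4 := by omega
            have eb : b = 3 * (b / 3 - 1) + 4 := by omega
            have eT : T = a / 3 - 1 + (b / 3 - 1) + 2 := by omega
            have := q2a (a / 3 - 1) (b / 3 - 1)
            rwa [← ea, ← eb, ← eT] at this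
          · have eb : b = 1 := by omega
            have ea : a = 3 * T + 1 := by omega
            have := q2b T
            rw [← ea] at this
            rw [eb]
            exact this
        rcases le_total a b with hl | hl
        · rw [perm2]
          exact key b a b1 a1 (by omega) hl
        · exact key a b a1 b1 hs2 hl
      · push Not at hm1
        have a1 := hm1 a ha
        have b1 := hm1 b hb
        have hs' : s = 1 := by omega
        subst hs'
        rw [hab']
        have ea : a = 3 * (a / 3) + 2 := by omega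
        have eb : b = 3 * (b / 3) + 2 := by omega
        have eT : T = a / 3 + b / 3 + 1 := by omega
        have := q1a (a / 3) (b / 3)
        rwa [← ea, ← eb, ← eT] at this

end Pool.Agent.Helper51.PSC
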