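import Mathlib

/-!
# Cyclic lists of slots (for MP_b6b2d3_co)

A slot is a pair `(i, c)` (level, colour) with `c < 3`, or one of the two extra slots `(0, 3)`,
`(0, 4)`. Every multiset of cycle lengths can be realised by cyclic lists of slots in which
cyclically consecutive slots are adjacent.
-/

namespace Pool.Agent.Helper51.PSC

/-- A nonempty list which is a single element or a closed walk for `R`. -/
def OK {α : Type*} (R : α → α → Prop) (l : List α) : Prop :=
  ∃ x l', l = x :: l' ∧ (l' = [] ∨ List.IsChain R (x :: (l' ++ [x])))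

/-- Upward steps. -/
def Up (x y : ℕ × ℕ) : Prop := x.1 ≤ y.1 ∧ x.2 < 3 ∧ y.2 = (x.2 + 1) % 3

/-- One half of the adjacency of slots. -/
def AdjS (x y : ℕ × ℕ) : Prop :=
  Up x y ∨ (x = (0, 3) ∧ (y.2 = 1 ∨ y = (0, 2) ∨ y = (0, 4))) ∨
    (x = (0, 4) ∧ (y.2 = 2 ∨ y = (0, 0)))

/-- Adjacency of slots. -/
def Adj (x y : ℕ × ℕ) : Prop := AdjS x y ∨ AdjS y x

theorem adj_of_up {x y : ℕ × ℕ} (h : Up x y) : Adj x y := Or.inl (Or.inl h)

theorem adj_of_up' {x y : ℕ × ℕ} (h : Up y x) : Adj x y := Or.inr (Or.inl h)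

/-- Snakes. -/
def sn (c lo : ℕ) : ℕ → List (ℕ × ℕ)
  | 0 => []
  | k + 1 => (lo, c) :: (lo, (c + 1) % 3) :: (lo, (c + 2) % 3) :: sn c (lo + 1) k
termination_by k => k

theorem sn_succ (c lo k : ℕ) : sn c lo (k + 1) =
    (lo, c) :: (lo, (c + 1) % 3) :: (lo, (c + 2) % 3) :: sn c (lo + 1) k := by
  rw [sn]

theorem sn_zero (c lo : ℕ) : sn c lo 0 = [] := by rw [sn]

@[simp] theorem length_sn (c : ℕ) : ∀ k lo : ℕ, (sn c lo k).length = 3 * k
  | 0, lo => by rw [sn_zero]; rfl
  | k + 1, lo => by
      rw [sn_succ]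
      simp only [List.length_cons, length_sn c k (lo + 1)]
      ring

theorem mem_sn {c : ℕ} (hc : c < 3) : ∀ (k lo i d : ℕ),
    (i, d) ∈ sn c lo k ↔ lo ≤ i ∧ i < lo + k ∧ d < 3
  | 0, lo, i, d => by
      rw [sn_zero]
      simp only [List.not_mem_nil, false_iff]
      omega
  | k + 1, lo, i, d => by
      rw [sn_succ]
      simp only [List.mem_cons, mem_sn hc k (lo + 1) i d, Prod.mk.injEq]
      omega

theorem chain_sn {R : ℕ × ℕ → ℕ × ℕ → Prop} (hR : ∀ x y, Up x y → R x y) {c : ℕ} (hc : c < 3) :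
    ∀ (k lo : ℕ) (x y : ℕ × ℕ) (rest : List (ℕ × ℕ)), (k = 0 → R x y) → (0 < k → R x (lo, c)) →
      (0 < k → R (lo + k - 1, (c + 2) % 3) y) → List.IsChain R (y :: rest) →
      List.IsChain R (x :: (sn c lo k ++ y :: rest))
  | 0, lo, x, y, rest, h0, _, _, h => by
      rw [sn_zero, List.nil_append, List.isChain_cons_cons]
      exact ⟨h0 rfl, h⟩
  | k + 1, lo, x, y, rest, _, h1, h2, h => by
      rw [sn_succ]
      simp only [List.cons_append, List.isChain_cons_cons]
      refine ⟨h1 (Nat.succ_pos k), hR _ _ ⟨le_rfl, hc, rfl⟩, hR _ _ ⟨le_rfl, ?_, ?_⟩, ?_⟩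
      · simp only; omega
      · simp only; omega
      · refine chain_sn hR hc k (lo + 1) _ y rest ?_ ?_ ?_ h
        · intro hk
          have := h2 (Nat.succ_pos k)
          rw [hk] at this
          simpa using this
        · intro _
          refine hR _ _ ⟨?_, ?_, ?_⟩ <;> simp only <;> omega
        · intro hk
          have := h2 (Nat.succ_pos k)
          have e : lo + (k + 1) - 1 = lo + 1 + k - 1 := by omega
          rw [e] at this
          exact this

/-- The set of slots. -/
def Slots (s T : ℕ) (x : ℕ × ℕ) : Prop :=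
  (x.1 < T ∧ x.2 < 3) ∨ (x = (0, 3) ∧ 1 ≤ s) ∨ (x = (0, 4) ∧ 2 ≤ s)

/-- The multiset `m` of cycle lengths is realised in the slots. -/
def Good (s T : ℕ) (m : Multiset ℕ) : Prop :=
  ∃ LL : List (List (ℕ × ℕ)), (↑(LL.map List.length) : Multiset ℕ) = m ∧
    (∀ l ∈ LL, OK Adj l) ∧ ∀ x, x ∈ LL.flatten ↔ Slots s T x

theorem ok_single (x : ℕ × ℕ) : OK Adj [x] := ⟨x, [], rfl, Or.inl rfl⟩

theorem ok_cons {x : ℕ × ℕ} {l : List (ℕ × ℕ)} (h : List.IsChain Adj (x :: (l ++ [x]))) :
    OK Adj (x :: l) := ⟨x, l, rfl, Or.inr h⟩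

theorem good_add {s T T' : ℕ} {m m' : Multiset ℕ} (h : Good s T m) (h' : Good 0 T' m') :
    Good s (T + T') (m + m') := by
  obtain ⟨LL, h1, h2, h3⟩ := h
  obtain ⟨LL', h1', h2', h3'⟩ := h'
  set f : ℕ × ℕ → ℕ × ℕ := fun x => (x.1 + T, x.2) with hf
  refine ⟨LL ++ LL'.map (List.map f), ?_, ?_, ?_⟩
  · rw [← h1, ← h1']
    simp only [List.map_append, List.map_map, Multiset.coe_add, Multiset.coe_eq_coe]
    have : List.map (List.length ∘ List.map f) LL' = List.map List.length LL' := by
      apply List.map_congr_left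
      intro l _
      simp
    rw [this]
  · intro l hl
    rcases List.mem_append.1 hl with hl | hl
    · exact h2 l hl
    · obtain ⟨l0, hl0, rfl⟩ := List.mem_map.1 hl
      obtain ⟨x, l', hx, hc⟩ := h2' l0 hl0
      refine ⟨f x, l'.map f, by rw [hx]; rfl, ?_⟩
      rcases hc with hc | hc
      · left; rw [hc]; rfl
      · right
        have e : f x :: (List.map f l' ++ [f x]) = List.map f (x :: (l' ++ [x])) := by simp
        rw [e, List.isChain_map]
        have hmem : ∀ y ∈ x :: (l' ++ [x]), y.2 < 3 := by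
          intro y hy
          have hy' : y ∈ l0 := by
            rw [hx]
            simp only [List.mem_cons, List.mem_append, List.not_mem_nil, or_false] at hy ⊢
            tauto
          have := (h3' y).1 (List.mem_flatten.2 ⟨l0, hl0, hy'⟩)
          rcases this with h | h | h
          · exact h.2
          · omega
          · omega
        refine List.IsChain.imp_of_mem_imp ?_ hc
        intro a b ha hb hab
        have ha3 := hmem a ha
        have hb3 := hmem b hb
        have key : ∀ a b : ℕ × ℕ, a.2 < 3 → b.2 < 3 → AdjS a b → AdjS (f a) (f b) := by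
          intro a b ha hb hab
          rcases hab with h | ⟨h, _⟩ | ⟨h, _⟩
          · exact Or.inl ⟨by simp only [hf]; have := h.1; omega, h.2.1, h.2.2⟩
          · rw [h] at ha; simp at ha
          · rw [h] at ha; simp at ha
        rcases hab with h | h
        · exact Or.inl (key a b ha3 hb3 h)
        · exact Or.inr (key b a hb3 ha3 h)
  · rintro ⟨i, d⟩
    rw [List.flatten_append, List.mem_append, h3]
    have h4 : (i, d) ∈ (LL'.map (List.map f)).flatten ↔ ∃ y, Slots 0 T' y ∧ f y = (i, d) := by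
      simp only [List.mem_flatten, List.mem_map]
      constructor
      · rintro ⟨_, ⟨l, hl, rfl⟩, hm⟩
        obtain ⟨y, hy, hy'⟩ := List.mem_map.1 hm
        exact ⟨y, (h3' y).1 (List.mem_flatten.2 ⟨l, hl, hy⟩), hy'⟩
      · rintro ⟨y, hy, hy'⟩
        obtain ⟨l, hl, hyl⟩ := List.mem_flatten.1 ((h3' y).2 hy)
        exact ⟨l.map f, ⟨l, hl, rfl⟩, List.mem_map.2 ⟨y, hyl, hy'⟩⟩
    rw [h4]
    constructor
    · rintro (h | ⟨⟨j, e⟩, hy, hy'⟩)
      · rcases h with h | h | h
        · left; simp only at h ⊢; omega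
        · exact Or.inr (Or.inl h)
        · exact Or.inr (Or.inr h)
      · simp only [hf, Prod.mk.injEq] at hy'
        rcases hy with h | h | h
        · left; simp only at h ⊢; omega
        · omega
        · omega
    · rintro (h | h | h)
      · simp only at h
        by_cases hi : i < T
        · left; left; simp only; omega
        · right
          refine ⟨(i - T, d), Or.inl ⟨?_, h.2⟩, ?_⟩
          · simp only; omega
          · change (i - T + T, d) = (i, d)
            rw [Nat.sub_add_cancel (by omega)]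
      · exact Or.inl (Or.inr (Or.inl h))
      · exact Or.inl (Or.inr (Or.inr h))

end Pool.Agent.Helper51.PSC
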